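import Pool.Agent.Y885.KT1
import Pool.Agent.H386R2.HL.E

/-!
# Covering integers by one residue class per prime near `N ^ α`: the exponent `1 - 3 α / 7`
-/

set_option autoImplicit false

namespace Pool.Agent.Results.MP_bb5cc8_nt.SumsDifferences

open Finset

open Classical in
/-- The set `𝒫_α(N)` of the primes `p` with `N ^ α ≤ p < 2 N ^ α`. -/
noncomputable def window (α : ℝ) (N : ℕ) : Finset ℕ :=
  (range ⌈2 * (N : ℝ) ^ α⌉₊).filter (fun p => p.Prime ∧ (N : ℝ) ^ α ≤ p)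

open Classical in
/-- The set of the integers `1 ≤ n ≤ N` with `n ≡ a p (mod p)` for some `p` in `Q`. -/
noncomputable def covered (Q : Finset ℕ) (a : ℕ → ℤ) (N : ℕ) : Finset ℕ :=
  (Icc 1 N).filter (fun n => ∃ p ∈ Q, (n : ℤ) ≡ a p [ZMOD p])

lemma window_card (α : ℝ) (h1 : 1 / 2 ≤ α) (h2 : α < 1) : ∃ N₀ : ℕ, ∀ N : ℕ, N₀ ≤ N →
    (N : ℝ) ^ α / (4 * Real.log N) ≤ ((window α N).card : ℝ) := by
  classical
  obtain ⟨x₀, h0⟩ := Pool.Agent.H386R2.HL.pnt_window (1 / 2) (by norm_num)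
  have hev : Filter.Tendsto (fun N : ℕ => (N : ℝ) ^ α) Filter.atTop Filter.atTop :=
    (tendsto_rpow_atTop (by linarith)).comp tendsto_natCast_atTop_atTop
  obtain ⟨N₁, hN₁⟩ := Filter.eventually_atTop.1 (hev.eventually_ge_atTop ((x₀ : ℝ) + 4))
  refine ⟨N₁ + 3, fun N hN => ?_⟩
  have hNr : (3 : ℝ) ≤ N := by exact_mod_cast (by omega : 3 ≤ N)
  obtain ⟨T, hT⟩ : ∃ T, T = (N : ℝ) ^ α := ⟨_, rfl⟩
  have hT4 : (x₀ : ℝ) + 4 ≤ T := by rw [hT]; exact hN₁ N (by omega)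
  have hx0 : (0 : ℝ) ≤ x₀ := Nat.cast_nonneg _
  obtain ⟨x, hx⟩ : ∃ x, x = ⌊T⌋₊ := ⟨_, rfl⟩
  have hxT : (x : ℝ) ≤ T := by rw [hx]; exact Nat.floor_le (by linarith)
  have hTx : T < x + 1 := by rw [hx]; exact Nat.lt_floor_add_one T
  have hxx : x₀ ≤ x := by rw [hx]; apply Nat.le_floor; linarith
  have hx3 : (3 : ℝ) < x := by linarith
  have hx3n : 3 < x := by exact_mod_cast hx3
  have hw := h0 x hxx x le_rfl
  have hsub : (Ioc x (x + x)).filter Nat.Prime ⊆ window α N := by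
    intro p hp
    rw [mem_filter, mem_Ioc] at hp
    unfold window
    rw [mem_filter, mem_range, Nat.lt_ceil, ← hT]
    have hpx : (x : ℝ) + 1 ≤ p := by exact_mod_cast hp.1.1
    have hp2 : p ≠ x + x := by
      intro h
      have h3 : 2 ∣ p := ⟨x, by omega⟩
      have := (Nat.prime_dvd_prime_iff_eq Nat.prime_two hp.2).1 h3
      omega
    have hp3 : (p : ℝ) + 1 ≤ x + x := by exact_mod_cast (by omega : p + 1 ≤ x + x)
    exact ⟨by linarith, hp.2, by linarith⟩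
  have hcard : (Nat.primeCounting (x + x) : ℝ) - Nat.primeCounting x ≤ (window α N).card := by
    have e1 : Nat.primeCounting (x + x) ≤ Nat.primeCounting x + ((Ioc x (x + x)).filter Nat.Prime).card := by
      change Nat.count Nat.Prime (x + x + 1) ≤ Nat.count Nat.Prime (x + 1) + _
      rw [Nat.count_eq_card_filter_range, Nat.count_eq_card_filter_range]
      refine le_trans (card_le_card (t := (range (x + 1)).filter Nat.Prime ∪ (Ioc x (x + x)).filter Nat.Prime) ?_) (card_union_le _ _)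
      intro p hp
      rw [mem_filter, mem_range] at hp
      rw [mem_union, mem_filter, mem_range, mem_filter, mem_Ioc]
      by_cases h : p < x + 1
      · exact Or.inl ⟨h, hp.2⟩
      · exact Or.inr ⟨⟨by omega, by omega⟩, hp.2⟩
    have e2 := card_le_card hsub
    have e3 : Nat.primeCounting (x + x) ≤ Nat.primeCounting x + (window α N).card := e1.trans (by omega)
    have e4 : (Nat.primeCounting (x + x) : ℝ) ≤ Nat.primeCounting x + (window α N).card := by exact_mod_cast e3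
    linarith
  have hlogx : 0 < Real.log x := Real.log_pos (by linarith)
  have hlog : Real.log x ≤ Real.log N := by
    apply Real.log_le_log (by linarith)
    refine hxT.trans ?_
    rw [hT]
    calc (N : ℝ) ^ α ≤ (N : ℝ) ^ (1 : ℝ) := Real.rpow_le_rpow_of_exponent_le (by linarith) h2.le
      _ = N := Real.rpow_one _
  have hN0 : 0 < Real.log N := hlogx.trans_le hlog
  rw [← hT]
  calc T / (4 * Real.log N) ≤ (1 - 1 / 2) * (x / Real.log N) := by
        rw [div_le_iff₀ (by positivity)]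
        have : (1 - 1 / 2) * (x / Real.log N) * (4 * Real.log N) = 2 * x := by field_simp; norm_num
        rw [this]
        linarith
    _ ≤ (1 - 1 / 2) * (x / Real.log x) := by
        apply mul_le_mul_of_nonneg_left _ (by norm_num)
        exact div_le_div_of_nonneg_left (by linarith) hlogx hlog
    _ ≤ _ := hw.trans hcard

lemma covered_card (α : ℝ) (h1 : 1 / 2 ≤ α) (h2 : α < 1) : ∃ N₀ : ℕ, ∀ N : ℕ, N₀ ≤ N → ∀ (Q : Finset ℕ) (a : ℕ → ℤ),
    Q ⊆ window α N → (1 / 144) * (Q.card : ℝ) ^ ((4 : ℝ) / 7) * (N : ℝ) ^ (1 - α) ≤ ((covered Q a N).card : ℝ) := by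
  classical
  have hev : Filter.Tendsto (fun N : ℕ => (N : ℝ) ^ (1 - α)) Filter.atTop Filter.atTop :=
    (tendsto_rpow_atTop (by linarith)).comp tendsto_natCast_atTop_atTop
  obtain ⟨N₁, hN₁⟩ := Filter.eventually_atTop.1 (hev.eventually_ge_atTop (72 : ℝ))
  refine ⟨N₁ + 3, fun N hN Q a hQ => ?_⟩
  have hNr : (3 : ℝ) ≤ N := by exact_mod_cast (by omega : 3 ≤ N)
  obtain ⟨T, hT⟩ : ∃ T, T = (N : ℝ) ^ α := ⟨_, rfl⟩
  obtain ⟨R, hR⟩ : ∃ R, R = (N : ℝ) ^ (1 - α) := ⟨_, rfl⟩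
  have hTR : T * R = N := by
    rw [hT, hR, ← Real.rpow_add (by linarith)]
    have : α + (1 - α) = 1 := by ring
    rw [this, Real.rpow_one]
  have hR72 : 72 ≤ R := by rw [hR]; exact hN₁ N (by omega)
  have hRT : R ≤ T := by
    rw [hR, hT]
    exact Real.rpow_le_rpow_of_exponent_le (by linarith) (by linarith)
  have hT0 : 0 < T := by linarith
  obtain ⟨M, hM⟩ : ∃ M, M = ⌊R / 36⌋₊ := ⟨_, rfl⟩
  have hM1 : (M : ℝ) ≤ R / 36 := by rw [hM]; exact Nat.floor_le (by positivity)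
  have hM2 : R / 36 < M + 1 := by rw [hM]; exact Nat.lt_floor_add_one _
  have hM3 : 2 ≤ M := by
    rw [hM]
    apply Nat.le_floor
    push_cast
    linarith
  have hM3r : (2 : ℝ) ≤ M := by exact_mod_cast hM3
  have hM4 : R / 72 ≤ M := by linarith
  have hQm : ∀ p ∈ Q, p.Prime ∧ T ≤ p ∧ (p : ℝ) < 2 * T := by
    intro p hp
    have h := hQ hp
    unfold window at h
    rw [mem_filter, mem_range, Nat.lt_ceil, ← hT] at h
    exact ⟨h.2.1, h.2.2, h.1⟩
  -- the first element of every class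
  have hfirst : ∀ p ∈ Q, ∃ m : ℕ, 1 ≤ m ∧ m ≤ p ∧ (m : ℤ) ≡ a p [ZMOD p] := by
    intro p hp
    have hp0 : (0 : ℤ) < p := by exact_mod_cast (hQm p hp).1.pos
    by_cases h0 : a p % p = 0
    · refine ⟨p, (hQm p hp).1.one_le, le_rfl, ?_⟩
      rw [Int.ModEq, h0, Int.emod_self]
    · have h3 := Int.emod_nonneg (a p) hp0.ne'
      have h4 := Int.emod_lt_of_pos (a p) hp0
      refine ⟨(a p % p).toNat, by omega, by omega, ?_⟩
      rw [Int.toNat_of_nonneg h3]
      exact Int.mod_modEq _ _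
  choose! m hm1 hm2 hm3 using hfirst
  obtain ⟨S, hS⟩ : ∃ S : Finset ℤ, S = (covered Q a N).image (fun n : ℕ => (n : ℤ)) := ⟨_, rfl⟩
  have hScard : S.card = (covered Q a N).card := by
    rw [hS]
    exact card_image_of_injective _ Nat.cast_injective
  have hmain := Pool.Agent.Y885.KT.main_ineq S Q M (fun p => (m p : ℤ)) (by
    intro p hp
    refine ⟨(hQm p hp).1, ?_⟩
    have : (M : ℝ) ≤ p := by
      have := (hQm p hp).2.1
      linarith
    exact_mod_cast this) (by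
    intro p hp i hi
    rw [hS, mem_image]
    refine ⟨m p + i * p, ?_, by push_cast; ring⟩
    unfold covered
    rw [mem_filter, mem_Icc]
    refine ⟨⟨(hm1 p hp).trans (Nat.le_add_right _ _), ?_⟩, p, hp, ?_⟩
    · have e1 : m p + i * p ≤ 18 * M * p := by
        have e2 := hm2 p hp
        have e3 : (i + 1) * p ≤ 18 * M * p := Nat.mul_le_mul_right _ (by omega)
        rw [add_mul, one_mul] at e3
        omega
      have e4 : ((18 * M * p : ℕ) : ℝ) ≤ N := by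
        push_cast
        have e5 := (hQm p hp).2.2
        have e6 : 18 * (M : ℝ) ≤ R / 2 := by linarith
        calc 18 * (M : ℝ) * p ≤ (R / 2) * (2 * T) := mul_le_mul e6 e5.le (Nat.cast_nonneg _) (by linarith)
          _ = N := by rw [← hTR]; ring
      exact e1.trans (by exact_mod_cast e4)
    · push_cast
      have e1 : (m p : ℤ) + i * p ≡ m p + i * 0 [ZMOD p] := (Int.ModEq.refl _).add ((Int.ModEq.refl _).mul (by
        rw [Int.ModEq, Int.emod_self, Int.zero_emod]))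
      rw [mul_zero, add_zero] at e1
      exact e1.trans (hm3 p hp))
  rw [hScard] at hmain
  obtain ⟨c, hc⟩ : ∃ c : ℝ, c = (covered Q a N).card := ⟨_, rfl⟩
  rw [← hc] at hmain ⊢
  have hc0 : 0 ≤ c := by rw [hc]; exact Nat.cast_nonneg _
  obtain ⟨q, hq⟩ : ∃ q : ℝ, q = Q.card := ⟨_, rfl⟩
  rw [← hq] at hmain ⊢
  have hq0 : 0 ≤ q := by rw [hq]; exact Nat.cast_nonneg _
  have hM5 : (M : ℝ) / 2 ≤ ((M - 1 : ℕ) : ℝ) := by
    rw [Nat.cast_sub (by omega)]
    push_cast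
    linarith
  obtain ⟨r, hr⟩ : ∃ r : ℝ, r = q ^ ((4 : ℝ) / 7) := ⟨_, rfl⟩
  have hr0 : 0 ≤ r := by rw [hr]; positivity
  have hr7 : r ^ 7 = q ^ 4 := by
    rw [hr, ← Real.rpow_natCast, ← Real.rpow_mul hq0]
    norm_num
  have hM0 : (0 : ℝ) < M := by linarith
  have hkey : (r * M / 2) ^ 7 ≤ c ^ 7 := by
    have e1 : (q * (M * (M / 2))) ^ 4 ≤ c ^ 7 * M := by
      refine le_trans ?_ hmain
      apply pow_le_pow_left₀ (by positivity)
      apply mul_le_mul_of_nonneg_left _ hq0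
      exact mul_le_mul_of_nonneg_left hM5 hM0.le
    have e2 : (q * (M * (M / 2))) ^ 4 = (q ^ 4 * M ^ 7 / 16) * M := by ring
    rw [e2] at e1
    have e3 := le_of_mul_le_mul_right e1 hM0
    refine le_trans ?_ e3
    have e4 : (r * M / 2) ^ 7 = q ^ 4 * M ^ 7 / 128 := by rw [← hr7]; ring
    rw [e4]
    have : 0 ≤ q ^ 4 * (M : ℝ) ^ 7 := by positivity
    linarith
  have hfin : r * M / 2 ≤ c := (pow_le_pow_iff_left₀ (by positivity) hc0 (by norm_num)).1 hkey
  rw [← hr, ← hR]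
  calc 1 / 144 * r * R = r * (R / 72) / 2 := by ring
    _ ≤ r * M / 2 := by
        apply div_le_div_of_nonneg_right _ (by norm_num)
        exact mul_le_mul_of_nonneg_left hM4 hr0
    _ ≤ c := hfin

/-- Let `1 / 2 ≤ α < 1` and let `N` be large in terms of `α`. Then, for every choice `a` of the residues:
for every set `Q` of primes `p` with `N ^ α ≤ p < 2 N ^ α`, at least `|Q| ^ (4 / 7) N ^ (1 - α) / 144` of the
integers `1, ..., N` are congruent to `a p` modulo `p` for some `p` in `Q`; and for the set of all these primes there are at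
least `N ^ (1 - 3 α / 7) / (400 (log N) ^ (4 / 7))` such integers. -/
theorem result (α : ℝ) (h1 : 1 / 2 ≤ α) (h2 : α < 1) : ∃ N₀ : ℕ, ∀ N : ℕ, N₀ ≤ N → ∀ a : ℕ → ℤ,
    (∀ Q : Finset ℕ, Q ⊆ window α N →
      (1 / 144) * (Q.card : ℝ) ^ ((4 : ℝ) / 7) * (N : ℝ) ^ (1 - α) ≤ ((covered Q a N).card : ℝ)) ∧
    (1 / 400) * ((N : ℝ) ^ (1 - 3 * α / 7) / Real.log N ^ ((4 : ℝ) / 7)) ≤ ((covered (window α N) a N).card : ℝ) := by
  obtain ⟨N₁, hN₁⟩ := covered_card α h1 h2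
  obtain ⟨N₂, hN₂⟩ := window_card α h1 h2
  refine ⟨N₁ + N₂ + 3, fun N hN a => ⟨fun Q hQ => hN₁ N (by omega) Q a hQ, ?_⟩⟩
  refine le_trans ?_ (hN₁ N (by omega) (window α N) a (fun _ h => h))
  have hw := hN₂ N (by omega)
  have hNr : (3 : ℝ) ≤ N := by exact_mod_cast (by omega : 3 ≤ N)
  have hN0 : (0 : ℝ) < N := by linarith
  have hL0 : 0 < Real.log N := Real.log_pos (by linarith)
  have e1 : ((N : ℝ) ^ α / (4 * Real.log N)) ^ ((4 : ℝ) / 7) ≤ ((window α N).card : ℝ) ^ ((4 : ℝ) / 7) :=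
    Real.rpow_le_rpow (by positivity) hw (by norm_num)
  rw [Real.div_rpow (by positivity) (by positivity), Real.mul_rpow (by norm_num) hL0.le, ← Real.rpow_mul hN0.le] at e1
  have e2 : (4 : ℝ) ^ ((4 : ℝ) / 7) ≤ 400 / 144 := by
    have e3 : ((4 : ℝ) ^ ((4 : ℝ) / 7)) ^ 7 = 4 ^ 4 := by
      rw [← Real.rpow_natCast, ← Real.rpow_mul (by norm_num)]
      norm_num
    have e4 : ((4 : ℝ) ^ ((4 : ℝ) / 7)) ^ 7 ≤ (400 / 144) ^ 7 := by rw [e3]; norm_num
    exact (pow_le_pow_iff_left₀ (by positivity) (by norm_num) (by norm_num)).1 e4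
  have e5 : (N : ℝ) ^ (1 - 3 * α / 7) = (N : ℝ) ^ (α * (4 / 7)) * (N : ℝ) ^ (1 - α) := by
    rw [← Real.rpow_add hN0]
    congr 1
    ring
  rw [e5]
  obtain ⟨A, hA⟩ : ∃ A, A = (N : ℝ) ^ (α * (4 / 7)) := ⟨_, rfl⟩
  obtain ⟨B, hB⟩ : ∃ B, B = (N : ℝ) ^ (1 - α) := ⟨_, rfl⟩
  obtain ⟨L, hL⟩ : ∃ L, L = Real.log (N : ℝ) ^ ((4 : ℝ) / 7) := ⟨_, rfl⟩
  obtain ⟨F, hF⟩ : ∃ F, F = (4 : ℝ) ^ ((4 : ℝ) / 7) := ⟨_, rfl⟩
  rw [← hA, ← hL, ← hF] at e1
  rw [← hA, ← hB, ← hL]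
  rw [← hF] at e2
  have hA0 : 0 < A := by rw [hA]; positivity
  have hB0 : 0 < B := by rw [hB]; positivity
  have hL0' : 0 < L := by rw [hL]; positivity
  have hF0 : 0 < F := by rw [hF]; positivity
  calc 1 / 400 * (A * B / L) = (1 / 144) * (A / ((400 / 144) * L)) * B := by field_simp
    _ ≤ (1 / 144) * (A / (F * L)) * B := by gcongr
    _ ≤ (1 / 144) * ((window α N).card : ℝ) ^ ((4 : ℝ) / 7) * B := by gcongr

end Pool.Agent.Results.MP_bb5cc8_nt.SumsDifferences
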